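import Mathlib

open Set Topology

namespace Pool.Agent.DSepSquare

/-- `X` is d-separable: there are discrete subsets `F 0, F 1, ...` of `X` with dense union. -/
def IsLowercaseDSeparable (X : Type*) [TopologicalSpace X] : Prop :=
  ∃ F : ℕ → Set X, (∀ n, IsDiscrete (F n)) ∧ Dense (⋃ n, F n)

/-- `X` is D-separable: for every sequence `D 0, D 1, ...` of dense subsets of `X` there are discrete
sets `F n ⊆ D n` whose union is dense in `X`. -/
def IsUppercaseDSeparable (X : Type*) [TopologicalSpace X] : Prop :=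
  ∀ D : ℕ → Set X, (∀ n, Dense (D n)) →
    ∃ F : ℕ → Set X, (∀ n, F n ⊆ D n ∧ IsDiscrete (F n)) ∧ Dense (⋃ n, F n)

end Pool.Agent.DSepSquare
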