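import Mathlib
import Pool.Agent.DSepSquare.Defs

/-!
A zero-dimensional Hausdorff space that is not d-separable and whose square is D-separable
(in ZFC).

Construction.  Let `K` be the initial ordinal of the cardinal successor of the continuum and `W`
an uncountable well-order of type omega one.  An Ulam matrix argument gives a function `Φ` from `K`
to the countable subsets of `W × Bool` such that every countable set of labels `r` and every
`h : K → K` admit a point `δ` of countable cofinality, closed under `h`, with `Φ δ = r`.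
A condition is a nonempty countable set of triples (position, label in `W`, bit) with a last element,
whose labels increase with the positions and such that at each limit `δ` of its positions the set
of labels used below `δ` is `Φ δ`.  Conditions are ordered by end-extension; the space is the set of
conditions with the topology generated by the cones and their complements.
-/

open Set Filter Topology Cardinal

namespace Pool.Agent.DSepSquare

section

variable {P : Type} [PartialOrder P]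

/-- the cone topology -/
@[reducible] def coneTop (P : Type) [PartialOrder P] : TopologicalSpace P :=
  TopologicalSpace.generateFrom {U | ∃ p : P, U = Ici p ∨ U = (Ici p)ᶜ}

theorem isOpen_Ici (p : P) : IsOpen[coneTop P] (Ici p) :=
  TopologicalSpace.isOpen_generateFrom_of_mem ⟨p, Or.inl rfl⟩

theorem isOpen_compl_Ici (p : P) : IsOpen[coneTop P] (Ici p)ᶜ :=
  TopologicalSpace.isOpen_generateFrom_of_mem ⟨p, Or.inr rfl⟩

theorem open_aux {U : Set P} (hU : IsOpen[coneTop P] U) : ∀ x ∈ U, ∃ Q : Set P, Q.Finite ∧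
    (∀ q ∈ Q, ¬ q ≤ x) ∧ ∀ t, x ≤ t → (∀ q ∈ Q, ¬ q ≤ t) → t ∈ U := by
  induction hU with
  | basic U hU =>
    intro x hx
    obtain ⟨p, rfl | rfl⟩ := hU
    · exact ⟨∅, Set.finite_empty, by simp, fun t ht _ => le_trans (show p ≤ x from hx) ht⟩
    · exact ⟨{p}, Set.finite_singleton p, by simpa using hx, fun t _ ht => ht p rfl⟩
  | univ => intro x _; exact ⟨∅, Set.finite_empty, by simp, fun t _ _ => trivial⟩
  | inter U V _ _ ihU ihV =>
    intro x hx
    obtain ⟨Q, hQ, hQx, hQt⟩ := ihU x hx.1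
    obtain ⟨R, hR, hRx, hRt⟩ := ihV x hx.2
    refine ⟨Q ∪ R, hQ.union hR, ?_, ?_⟩
    · rintro q (hq | hq)
      · exact hQx q hq
      · exact hRx q hq
    · intro t ht h
      exact ⟨hQt t ht fun q hq => h q (Or.inl hq), hRt t ht fun q hq => h q (Or.inr hq)⟩
  | sUnion S _ ih =>
    rintro x ⟨U, hU, hx⟩
    obtain ⟨Q, hQ, hQx, hQt⟩ := ih U hU x hx
    exact ⟨Q, hQ, hQx, fun t ht h => ⟨U, hU, hQt t ht h⟩⟩

/-- strong finite separativity -/
def H1 (P : Type) [PartialOrder P] : Prop :=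
  ∀ (p : P) (Q : Set P), Q.Finite → (∀ q ∈ Q, ¬ q ≤ p) →
    ∃ r, p < r ∧ ∀ q ∈ Q, ∀ t, ¬ (r ≤ t ∧ q ≤ t)

/-- distributivity -/
def H2 (P : Type) [PartialOrder P] : Prop :=
  ∀ G : ℕ → Set P, (∀ n, ∀ p ∈ G n, ∀ q, p ≤ q → q ∈ G n) → (∀ n p, ∃ q ∈ G n, p ≤ q) →
    (⋂ n, G n).Nonempty

def H3 (P : Type) [PartialOrder P] : Prop :=
  ∃ E : ℕ → Set (P × P), (∀ n, ∀ x ∈ E n, ∀ y ∈ E n, (∃ t, x ≤ t ∧ y ≤ t) → x = y) ∧
    ∀ x : P × P, ∃ n, ∃ y ∈ E n, x ≤ y

theorem exists_cone (h1 : H1 P) {U : Set P} (hU : IsOpen[coneTop P] U) {x : P} (hx : x ∈ U) :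
    ∃ r, x < r ∧ Ici r ⊆ U := by
  obtain ⟨Q, hQ, hQx, hQt⟩ := open_aux hU x hx
  obtain ⟨r, hr, hrQ⟩ := h1 x Q hQ hQx
  exact ⟨r, hr, fun t ht => hQt t (hr.le.trans ht) fun q hq hqt => hrQ q hq t ⟨ht, hqt⟩⟩

theorem t2_cone : @T2Space P (coneTop P) := by
  let _ := coneTop P
  have key : ∀ x y : P, ¬ x ≤ y → ∃ u v : Set P, IsOpen u ∧ IsOpen v ∧ x ∈ u ∧ y ∈ v ∧ Disjoint u v :=
    fun x y hxy => ⟨Ici x, (Ici x)ᶜ, isOpen_Ici x, isOpen_compl_Ici x, le_refl x, hxy,
      disjoint_compl_right⟩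
  refine ⟨fun x y hne => ?_⟩
  by_cases hxy : x ≤ y
  · have hyx : ¬ y ≤ x := fun h => hne (le_antisymm hxy h)
    obtain ⟨u, v, hu, hv, hyu, hxv, hd⟩ := key y x hyx
    exact ⟨v, u, hv, hu, hxv, hyu, hd.symm⟩
  · exact key x y hxy

theorem clopen_basis_cone : @TopologicalSpace.IsTopologicalBasis P (coneTop P)
    {s : Set P | @IsClopen P (coneTop P) s} := by
  let _ := coneTop P
  have hsub : ∀ s ∈ {U | ∃ p : P, U = Ici p ∨ U = (Ici p)ᶜ}, IsClopen s := by
    rintro s ⟨p, rfl | rfl⟩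
    · exact ⟨⟨isOpen_compl_Ici p⟩, isOpen_Ici p⟩
    · exact IsClopen.compl ⟨⟨isOpen_compl_Ici p⟩, isOpen_Ici p⟩
  have hb := TopologicalSpace.isTopologicalBasis_of_subbasis (t := coneTop P)
    (s := {U | ∃ p : P, U = Ici p ∨ U = (Ici p)ᶜ}) rfl
  refine TopologicalSpace.isTopologicalBasis_of_isOpen_of_nhds (fun u hu => hu.2) ?_
  intro a u ha hu
  obtain ⟨v, ⟨f, ⟨hf, hfs⟩, rfl⟩, hav, hvu⟩ := hb.exists_subset_of_mem_open ha hu
  exact ⟨⋂₀ f, ⟨isClosed_sInter fun s hs => (hsub s (hfs hs)).1,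
    hf.isOpen_sInter fun s hs => (hsub s (hfs hs)).2⟩, hav, hvu⟩

theorem not_little (h1 : H1 P) (h2 : H2 P) : ¬ @IsLowercaseDSeparable P (coneTop P) := by
  let _ := coneTop P
  rintro ⟨F, hF, hd⟩
  obtain ⟨r, hr⟩ := h2 (fun n => {r | Ici r ∩ F n = ∅}) (by
      intro n p hp q hpq
      have : Ici q ∩ F n ⊆ Ici p ∩ F n := inter_subset_inter_left _ (Ici_subset_Ici.2 hpq)
      exact Set.subset_empty_iff.1 (this.trans (le_of_eq hp))) (by
      intro n p
      by_cases hp : Ici p ∩ F n = ∅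
      · exact ⟨p, hp, le_rfl⟩
      · obtain ⟨f, hfp, hfF⟩ := Set.nonempty_iff_ne_empty.2 hp
        obtain ⟨U, hU, hUF⟩ := isDiscrete_iff_forall_mem_exists_isOpen.1 (hF n) f hfF
        have hfU : f ∈ U := by
          have : f ∈ U ∩ F n := by rw [hUF]; exact rfl
          exact this.1
        obtain ⟨r, hfr, hrU⟩ := exists_cone h1 hU hfU
        refine ⟨r, ?_, le_trans hfp hfr.le⟩
        ext z
        simp only [mem_inter_iff, mem_Ici, mem_empty_iff_false, iff_false, not_and]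
        intro hrz hzF
        have : z ∈ U ∩ F n := ⟨hrU hrz, hzF⟩
        rw [hUF] at this
        have hzf : z = f := this
        rw [hzf] at hrz
        exact absurd hfr (not_lt_of_ge hrz))
  have hr' : ∀ n, Ici r ∩ F n = ∅ := fun n => mem_iInter.1 hr n
  obtain ⟨z, hz1, hz2⟩ := hd.inter_open_nonempty (Ici r) (isOpen_Ici r) ⟨r, le_refl r⟩
  obtain ⟨n, hn⟩ := mem_iUnion.1 hz2
  have : z ∈ Ici r ∩ F n := ⟨hz1, hn⟩
  rw [hr' n] at this
  exact this

theorem big_sq (h1 : H1 P) (h3 : H3 P) :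
    @IsUppercaseDSeparable (P × P) (@instTopologicalSpaceProd P P (coneTop P) (coneTop P)) := by
  classical
  let _ := coneTop P
  obtain ⟨E, hE1, hE2⟩ := h3
  intro D hD
  have hopen : ∀ y : P × P, IsOpen (Ici y) := by
    intro y
    have : Ici y = Ici y.1 ×ˢ Ici y.2 := by
      ext z; simp [Prod.le_def]
    rw [this]
    exact (isOpen_Ici y.1).prod (isOpen_Ici y.2)
  have hch : ∀ n (y : P × P), ∃ d, d ∈ D n ∧ y ≤ d := by
    intro n y
    obtain ⟨d, hd1, hd2⟩ := (hD n).inter_open_nonempty (Ici y) (hopen y) ⟨y, le_refl y⟩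
    exact ⟨d, hd2, hd1⟩
  choose d hdD hdle using hch
  refine ⟨fun n => d n '' E n, fun n => ⟨?_, ?_⟩, ?_⟩
  · rintro _ ⟨y, _, rfl⟩
    exact hdD n y
  · rw [isDiscrete_iff_forall_mem_exists_isOpen]
    rintro _ ⟨y, hy, rfl⟩
    refine ⟨Ici y, hopen y, ?_⟩
    ext z
    simp only [mem_inter_iff, mem_Ici, mem_image, mem_singleton_iff]
    constructor
    · rintro ⟨hyz, y', hy', rfl⟩
      have : y = y' := hE1 n y hy y' hy' ⟨d n y', hyz, hdle n y'⟩
      rw [this]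
    · rintro rfl
      exact ⟨hdle n y, y, hy, rfl⟩
  · rw [dense_iff_inter_open]
    rintro U hU ⟨x, hx⟩
    obtain ⟨u, v, hu, hv, hxu, hxv, huv⟩ := isOpen_prod_iff.1 hU x.1 x.2 hx
    obtain ⟨r, hr, hru⟩ := exists_cone h1 hu hxu
    obtain ⟨r', hr', hrv⟩ := exists_cone h1 hv hxv
    obtain ⟨n, y, hy, hxy⟩ := hE2 (r, r')
    refine ⟨d n y, ?_, mem_iUnion.2 ⟨n, y, hy, rfl⟩⟩
    have h : (r, r') ≤ d n y := hxy.trans (hdle n y)
    exact huv ⟨hru h.1, hrv h.2⟩

end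

section

variable {K W : Type} [LinearOrder K] [LinearOrder W]

/-- `δ` is a limit of (the first coordinates of) `s` -/
def IsLim (s : Set (K × W × Bool)) (δ : K) : Prop :=
  (∃ x ∈ s, x.1 < δ) ∧ ∀ γ < δ, ∃ x ∈ s, γ < x.1 ∧ x.1 < δ

/-- labels of the elements of `s` below `δ` -/
def code (s : Set (K × W × Bool)) (δ : K) : Set (W × Bool) := {u | ∃ x ∈ s, x.1 < δ ∧ x.2 = u}

/-- the conditions -/
structure Cond (Φ : K → Set (W × Bool)) where
  s : Set (K × W × Bool)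
  cnt : s.Countable
  top : K × W × Bool
  top_mem : top ∈ s
  le_top : ∀ x ∈ s, x.1 ≤ top.1
  mono : ∀ x ∈ s, ∀ y ∈ s, x.1 < y.1 → x.2.1 < y.2.1
  inj : ∀ x ∈ s, ∀ y ∈ s, x.1 = y.1 → x = y
  lim : ∀ δ, IsLim s δ → Φ δ = code s δ

variable {Φ : K → Set (W × Bool)}

theorem Cond.ext' {p q : Cond Φ} (h : p.s = q.s) : p = q := by
  have ht : p.top = q.top := by
    refine p.inj _ p.top_mem _ (by rw [h]; exact q.top_mem) ?_
    refine le_antisymm ?_ ?_
    · exact q.le_top _ (by rw [← h]; exact p.top_mem)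
    · exact p.le_top _ (by rw [h]; exact q.top_mem)
  cases p; cases q
  simp only at h ht
  subst h; subst ht
  rfl

instance : PartialOrder (Cond Φ) where
  le p q := p.s ⊆ q.s ∧ ∀ z ∈ q.s, z.1 ≤ p.top.1 → z ∈ p.s
  le_refl p := ⟨Subset.rfl, fun _ hz _ => hz⟩
  le_trans p q r hpq hqr := ⟨hpq.1.trans hqr.1, fun z hz hzp =>
    hpq.2 z (hqr.2 z hz (hzp.trans (q.le_top _ (hpq.1 p.top_mem)))) hzp⟩
  le_antisymm p q hpq hqp := Cond.ext' (hpq.1.antisymm hqp.1)

theorem le_def {p q : Cond Φ} : p ≤ q ↔ p.s ⊆ q.s ∧ ∀ z ∈ q.s, z.1 ≤ p.top.1 → z ∈ p.s := Iff.rfl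

theorem top_le {p q : Cond Φ} (h : p ≤ q) : p.top.1 ≤ q.top.1 := q.le_top _ (h.1 p.top_mem)

/-- tree property -/
theorem comparable {p q t : Cond Φ} (hp : p ≤ t) (hq : q ≤ t) (h : p.top.1 ≤ q.top.1) : p ≤ q :=
  ⟨fun z hz => hq.2 z (hp.1 hz) ((p.le_top z hz).trans h), fun z hz hzp => hp.2 z (hq.1 hz) hzp⟩

theorem eq_of_top {p q t : Cond Φ} (hp : p ≤ t) (hq : q ≤ t) (h : p.top.1 = q.top.1) : p = q :=
  le_antisymm (comparable hp hq h.le) (comparable hq hp h.ge)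

/-- one step extension -/
def Cond.snoc (p : Cond Φ) (a : K) (w : W) (i : Bool) (ha : p.top.1 < a)
    (hw : ∀ x ∈ p.s, x.2.1 < w) : Cond Φ where
  s := insert (a, w, i) p.s
  cnt := p.cnt.insert _
  top := (a, w, i)
  top_mem := mem_insert _ _
  le_top := by
    rintro x (rfl | hx)
    · exact le_rfl
    · exact (p.le_top x hx).trans ha.le
  mono := by
    rintro x (rfl | hx) y (rfl | hy) hxy
    · exact absurd hxy (lt_irrefl _)
    · exact absurd (hxy.trans_le (p.le_top y hy)) (not_lt_of_gt ha)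
    · exact hw x hx
    · exact p.mono x hx y hy hxy
  inj := by
    rintro x (rfl | hx) y (rfl | hy) hxy
    · rfl
    · exfalso
      have := p.le_top y hy
      rw [← hxy] at this
      exact absurd this (not_le_of_gt ha)
    · exfalso
      have := p.le_top x hx
      rw [hxy] at this
      exact absurd this (not_le_of_gt ha)
    · exact p.inj x hx y hy hxy
  lim := by
    rintro δ ⟨⟨x, hx, hxδ⟩, hδ⟩
    have hδa : δ ≤ a := by
      by_contra hlt
      push Not at hlt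
      obtain ⟨y, hy, hay, _⟩ := hδ a hlt
      rcases hy with rfl | hy
      · exact lt_irrefl _ hay
      · exact absurd (hay.trans_le (p.le_top y hy)) (not_lt_of_gt ha)
    have hlim : IsLim p.s δ := by
      refine ⟨?_, fun γ hγ => ?_⟩
      · rcases hx with rfl | hx
        · exact absurd hxδ (not_lt_of_ge hδa)
        · exact ⟨x, hx, hxδ⟩
      · obtain ⟨y, hy, h1, h2⟩ := hδ γ hγ
        rcases hy with rfl | hy
        · exact absurd h2 (not_lt_of_ge hδa)
        · exact ⟨y, hy, h1, h2⟩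
    rw [p.lim δ hlim]
    ext u
    constructor
    · rintro ⟨y, hy, h1, h2⟩
      exact ⟨y, Or.inr hy, h1, h2⟩
    · rintro ⟨y, hy, h1, h2⟩
      rcases hy with rfl | hy
      · exact absurd h1 (not_lt_of_ge hδa)
      · exact ⟨y, hy, h1, h2⟩

theorem snoc_s (p : Cond Φ) (a : K) (w : W) (i : Bool) (ha : p.top.1 < a)
    (hw : ∀ x ∈ p.s, x.2.1 < w) : (p.snoc a w i ha hw).s = insert (a, w, i) p.s := rfl

theorem snoc_top (p : Cond Φ) (a : K) (w : W) (i : Bool) (ha : p.top.1 < a)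
    (hw : ∀ x ∈ p.s, x.2.1 < w) : (p.snoc a w i ha hw).top = (a, w, i) := rfl

theorem lt_snoc (p : Cond Φ) (a : K) (w : W) (i : Bool) (ha : p.top.1 < a)
    (hw : ∀ x ∈ p.s, x.2.1 < w) : p < p.snoc a w i ha hw := by
  have hle : p ≤ p.snoc a w i ha hw := by
    refine ⟨fun z hz => Or.inr hz, ?_⟩
    rintro z (rfl | hz) hzp
    · exact absurd hzp (not_le_of_gt ha)
    · exact hz
  refine lt_of_le_of_ne hle ?_
  intro h
  have h1 : (a, w, i) ∈ p.s := by
    have : (a, w, i) ∈ (p.snoc a w i ha hw).s := Or.inl rfl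
    rw [← h] at this
    exact this
  exact absurd (p.le_top _ h1) (not_le_of_gt ha)

/-- boundedness hypotheses -/
structure Params (K W : Type) [LinearOrder K] [LinearOrder W] (Φ : K → Set (W × Bool)) : Prop where
  wf : WellFoundedLT K
  bddK : ∀ s : Set K, #s ≤ 𝔠 → ∃ x, ∀ a ∈ s, a < x
  segK : ∀ a : K, #(Iic a) ≤ 𝔠
  bddW : ∀ s : Set W, s.Countable → ∃ x, ∀ a ∈ s, a < x
  cardW : #W ≤ 𝔠
  stat : ∀ r : Set (W × Bool), r.Countable → ∀ h : K → K, ∃ δ, Φ δ = r ∧
    (∃ γ : ℕ → K, StrictMono γ ∧ (∀ n, γ n < δ) ∧ ∀ x < δ, ∃ n, x < γ n) ∧ ∀ x < δ, h x < δ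
  neK : Nonempty K
  neW : Nonempty W

theorem Params.boundW (H : Params K W Φ) (p : Cond Φ) : ∃ w, ∀ x ∈ p.s, x.2.1 < w := by
  obtain ⟨w, hw⟩ := H.bddW ((fun x : K × W × Bool => x.2.1) '' p.s) (p.cnt.image _)
  exact ⟨w, fun x hx => hw _ (mem_image_of_mem _ hx)⟩

theorem Params.boundK (H : Params K W Φ) {s : Set K} (hs : s.Countable) : ∃ x, ∀ a ∈ s, a < x :=
  H.bddK s ((Cardinal.le_aleph0_iff_set_countable.2 hs).trans Cardinal.aleph0_le_continuum)

theorem cond_H1 (H : Params K W Φ) : H1 (Cond Φ) := by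
  intro p Q hQ hQp
  obtain ⟨a, ha⟩ := H.boundK (s := insert p.top.1 ((fun q : Cond Φ => q.top.1) '' Q))
    ((hQ.countable.image _).insert _)
  obtain ⟨w, hw⟩ := H.boundW p
  have hpa : p.top.1 < a := ha _ (mem_insert _ _)
  refine ⟨p.snoc a w true hpa hw, lt_snoc _ _ _ _ _ _, ?_⟩
  rintro q hq t ⟨hrt, hqt⟩
  have hqa : q.top.1 < a := ha _ (mem_insert_of_mem _ (mem_image_of_mem _ hq))
  -- q ≤ snoc
  have hqr : q ≤ p.snoc a w true hpa hw := comparable hqt hrt hqa.le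
  refine hQp q hq ⟨fun z hz => ?_, fun z hz hzq => hqr.2 z (Or.inr hz) hzq⟩
  rcases hqr.1 hz with rfl | h
  · exact absurd (q.le_top _ hz) (not_le_of_gt hqa)
  · exact h

/-! ### Antichains in the square -/

/-- separated pairs -/
def Sep (a b : Cond Φ) : Prop :=
  ∃ (w : W) (i : Bool), (∃ x ∈ a.s, x.2 = (w, i)) ∧ (∀ x ∈ b.s, x.2 ≠ (w, i)) ∧ ∃ x ∈ b.s, w ≤ x.2.1

theorem exists_sep (H : Params K W Φ) (p q : Cond Φ) : ∃ a b : Cond Φ, p ≤ a ∧ q ≤ b ∧ Sep a b := by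
  obtain ⟨w, hw⟩ := H.bddW ((fun x : K × W × Bool => x.2.1) '' p.s ∪ (fun x : K × W × Bool => x.2.1) '' q.s)
    ((p.cnt.image _).union (q.cnt.image _))
  have hwp : ∀ x ∈ p.s, x.2.1 < w := fun x hx => hw _ (Or.inl (mem_image_of_mem _ hx))
  have hwq : ∀ x ∈ q.s, x.2.1 < w := fun x hx => hw _ (Or.inr (mem_image_of_mem _ hx))
  obtain ⟨c, hc⟩ := H.boundK (s := {p.top.1, q.top.1}) (Set.toFinite _).countable
  have hpc : p.top.1 < c := hc _ (by simp)
  have hqc : q.top.1 < c := hc _ (by simp)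
  refine ⟨p.snoc c w true hpc hwp, q.snoc c w false hqc hwq, (lt_snoc _ _ _ _ _ _).le,
    (lt_snoc _ _ _ _ _ _).le, w, true, ⟨(c, w, true), Or.inl rfl, rfl⟩, ?_,
    ⟨(c, w, false), Or.inl rfl, le_rfl⟩⟩
  rintro x (rfl | hx) h
  · simp at h
  · have := hwq x hx
    rw [h] at this
    exact lt_irrefl _ this

/-- no common limit above a separated pair -/
theorem no_common_lim {a b p q : Cond Φ} (hab : Sep a b) (hap : a ≤ p) (hbq : b ≤ q) {δ : K}
    (hδa : a.top.1 < δ) (hp : IsLim p.s δ) (hq : IsLim q.s δ) : False := by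
  obtain ⟨w, i, ⟨x, hx, hxw⟩, hb, ⟨y, hy, hwy⟩⟩ := hab
  have h1 : (w, i) ∈ code p.s δ := ⟨x, hap.1 hx, lt_of_le_of_lt (a.le_top x hx) hδa, hxw⟩
  rw [← p.lim δ hp, q.lim δ hq] at h1
  obtain ⟨z, hz, hzδ, hzw⟩ := h1
  have hzb : z ∉ b.s := fun h => hb z h hzw
  have hbz : b.top.1 < z.1 := by
    by_contra hle
    push Not at hle
    exact hzb (hbq.2 z hz hle)
  have h2 := q.mono y (hbq.1 hy) z hz (lt_of_le_of_lt (b.le_top y hy) hbz)
  rw [hzw] at h2
  exact absurd (lt_of_le_of_lt hwy h2) (lt_irrefl _)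

open Classical in
/-- least element of `A` above `γ` -/
noncomputable def nxt [WellFoundedLT K] (A : Set K) (γ : K) : Option K :=
  if h : ({x ∈ A | γ < x}).Nonempty then some (wellFounded_lt.min {x ∈ A | γ < x} h) else none

theorem nxt_some [WellFoundedLT K] {A : Set K} {γ x : K} :
    nxt A γ = some x ↔ x ∈ A ∧ γ < x ∧ ∀ y ∈ A, γ < y → x ≤ y := by
  unfold nxt
  constructor
  · intro h
    split_ifs at h with hne
    · have hx : wellFounded_lt.min {x ∈ A | γ < x} hne = x := Option.some.inj h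
      have hm := wellFounded_lt.min_mem {x ∈ A | γ < x} hne
      rw [hx] at hm
      refine ⟨hm.1, hm.2, fun y hy hγy => ?_⟩
      rw [← hx]
      exact not_lt.1 (wellFounded_lt.not_lt_min {x ∈ A | γ < x} (show y ∈ {x ∈ A | γ < x} from ⟨hy, hγy⟩))
  · rintro ⟨h1, h2, h3⟩
    have hne : ({x ∈ A | γ < x}).Nonempty := ⟨x, h1, h2⟩
    rw [dif_pos hne]
    congr 1
    refine le_antisymm ?_ ?_
    · exact not_lt.1 (wellFounded_lt.not_lt_min {x ∈ A | γ < x} (show x ∈ {x ∈ A | γ < x} from ⟨h1, h2⟩))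
    · have hm := wellFounded_lt.min_mem {x ∈ A | γ < x} hne
      exact h3 _ hm.1 hm.2

theorem nxt_none [WellFoundedLT K] {A : Set K} {γ : K} : nxt A γ = none ↔ ∀ y ∈ A, y ≤ γ := by
  unfold nxt
  constructor
  · intro h y hy
    by_contra hlt
    push Not at hlt
    rw [dif_pos ⟨y, hy, hlt⟩] at h
    exact Option.some_ne_none _ h
  · intro h
    rw [dif_neg]
    rintro ⟨y, hy, hlt⟩
    exact absurd (h y hy) (not_le_of_gt hlt)

/-- first coordinates -/
def fst (p : Cond Φ) : Set K := Prod.fst '' p.s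

/-- the interleaving sequence -/
noncomputable def chain [WellFoundedLT K] (γ0 : K) (p q : Cond Φ) : ℕ → Option K
  | 0 => some γ0
  | k + 1 => (chain γ0 p q k).bind fun γ => if k % 2 = 0 then nxt (fst p) γ else nxt (fst q) γ

theorem nxt_ext [WellFoundedLT K] {p p' : Cond Φ} (h : p ≤ p') {γ x : K}
    (hx : nxt (fst p) γ = some x) : nxt (fst p') γ = some x := by
  rw [nxt_some] at hx ⊢
  obtain ⟨⟨z, hz, rfl⟩, h2, h3⟩ := hx
  refine ⟨⟨z, h.1 hz, rfl⟩, h2, ?_⟩
  rintro _ ⟨y, hy, rfl⟩ hγy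
  rcases le_or_gt y.1 p.top.1 with hle | hlt
  · exact h3 _ ⟨y, h.2 y hy hle, rfl⟩ hγy
  · exact (p.le_top z hz).trans hlt.le

theorem chain_ext [WellFoundedLT K] {γ0 : K} {p p' q q' : Cond Φ} (hp : p ≤ p') (hq : q ≤ q') :
    ∀ (k : ℕ) (x : K), chain γ0 p q k = some x → chain γ0 p' q' k = some x := by
  intro k
  induction k with
  | zero => intro x hx; exact hx
  | succ k ih =>
    intro x hx
    simp only [chain, Option.bind_eq_some_iff] at hx ⊢
    obtain ⟨γ, hγ, hx⟩ := hx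
    refine ⟨γ, ih γ hγ, ?_⟩
    split_ifs at hx ⊢ with h
    · exact nxt_ext hp hx
    · exact nxt_ext hq hx

theorem chain_finite [WellFoundedLT K] {a b p q : Cond Φ} (hab : Sep a b) (hap : a ≤ p) (hbq : b ≤ q) :
    ∃ k, chain (max a.top.1 b.top.1) p q k = none := by
  by_contra hcon
  push Not at hcon
  have hsome : ∀ k, ∃ x, chain (max a.top.1 b.top.1) p q k = some x := by
    intro k
    exact Option.ne_none_iff_exists'.1 (hcon k)
  choose γ hγ using hsome
  have hstep : ∀ k, (k % 2 = 0 → nxt (fst p) (γ k) = some (γ (k + 1))) ∧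
      (¬ k % 2 = 0 → nxt (fst q) (γ k) = some (γ (k + 1))) := by
    intro k
    have h := hγ (k + 1)
    simp only [chain, hγ k, Option.bind_some] at h
    constructor
    · intro hk; rw [if_pos hk] at h; exact h
    · intro hk; rw [if_neg hk] at h; exact h
  have hlt : ∀ k, γ k < γ (k + 1) := by
    intro k
    by_cases hk : k % 2 = 0
    · exact (nxt_some.1 ((hstep k).1 hk)).2.1
    · exact (nxt_some.1 ((hstep k).2 hk)).2.1
  have hmono : StrictMono γ := strictMono_nat_of_lt_succ hlt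
  have hp : ∀ k, γ (2 * k + 1) ∈ fst p := fun k => (nxt_some.1 ((hstep (2 * k)).1 (by omega))).1
  have hq : ∀ k, γ (2 * k + 2) ∈ fst q := fun k => (nxt_some.1 ((hstep (2 * k + 1)).2 (by omega))).1
  -- supremum
  have hne : {δ : K | ∀ k, γ k ≤ δ}.Nonempty := by
    refine ⟨p.top.1, fun k => ?_⟩
    obtain ⟨z, hz, hzk⟩ := hp k
    have h1 : γ k ≤ γ (2 * k + 1) := hmono.monotone (by omega)
    rw [← hzk] at h1
    exact h1.trans (p.le_top z hz)
  set δ := wellFounded_lt.min {δ : K | ∀ k, γ k ≤ δ} hne with hδ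
  have hδ1 : ∀ k, γ k ≤ δ := wellFounded_lt.min_mem {δ : K | ∀ k, γ k ≤ δ} hne
  have hδ2 : ∀ x < δ, ∃ k, x < γ k := by
    intro x hx
    by_contra hcon2
    push Not at hcon2
    exact absurd hx (wellFounded_lt.not_lt_min {δ : K | ∀ k, γ k ≤ δ} hcon2)
  have hδ3 : ∀ k, γ k < δ := fun k => (hlt k).trans_le (hδ1 (k + 1))
  have h0 : γ 0 = max a.top.1 b.top.1 := by
    have := hγ 0
    simp only [chain] at this
    exact (Option.some.inj this).symm
  refine no_common_lim hab hap hbq (δ := δ) ?_ ?_ ?_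
  · exact lt_of_le_of_lt (by rw [h0]; exact le_max_left _ _) (hδ3 0)
  · refine ⟨?_, fun x hx => ?_⟩
    · obtain ⟨z, hz, hzk⟩ := hp 0
      exact ⟨z, hz, by rw [hzk]; exact hδ3 _⟩
    · obtain ⟨k, hk⟩ := hδ2 x hx
      obtain ⟨z, hz, hzk⟩ := hp k
      refine ⟨z, hz, ?_, ?_⟩
      · rw [hzk]; exact hk.trans_le (hmono.monotone (by omega))
      · rw [hzk]; exact hδ3 _
  · refine ⟨?_, fun x hx => ?_⟩
    · obtain ⟨z, hz, hzk⟩ := hq 0
      exact ⟨z, hz, by rw [hzk]; exact hδ3 _⟩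
    · obtain ⟨k, hk⟩ := hδ2 x hx
      obtain ⟨z, hz, hzk⟩ := hq k
      refine ⟨z, hz, ?_, ?_⟩
      · rw [hzk]; exact hk.trans_le (hmono.monotone (by omega))
      · rw [hzk]; exact hδ3 _

/-- the strong antichains below a separated pair -/
def EE [WellFoundedLT K] (a b : Cond Φ) (k : ℕ) : Set (Cond Φ × Cond Φ) :=
  {x | a ≤ x.1 ∧ b ≤ x.2 ∧
    ((k % 2 = 0 ∧ chain (max a.top.1 b.top.1) x.1 x.2 (k + 1) = some x.1.top.1 ∧
        chain (max a.top.1 b.top.1) x.1 x.2 (k + 2) = some x.2.top.1) ∨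
      (¬ k % 2 = 0 ∧ chain (max a.top.1 b.top.1) x.1 x.2 (k + 1) = some x.2.top.1 ∧
        chain (max a.top.1 b.top.1) x.1 x.2 (k + 2) = some x.1.top.1))}

theorem EE_anti [WellFoundedLT K] {a b : Cond Φ} {k : ℕ} {x y : Cond Φ × Cond Φ}
    (hx : x ∈ EE a b k) (hy : y ∈ EE a b k) (h : ∃ t, x ≤ t ∧ y ≤ t) : x = y := by
  obtain ⟨t, hxt, hyt⟩ := h
  obtain ⟨_, _, hx⟩ := hx
  obtain ⟨_, _, hy⟩ := hy
  have e1 := chain_ext (γ0 := max a.top.1 b.top.1) hxt.1 hxt.2
  have e2 := chain_ext (γ0 := max a.top.1 b.top.1) hyt.1 hyt.2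
  rcases hx with ⟨h0, h1, h2⟩ | ⟨h0, h1, h2⟩
  · rcases hy with ⟨_, h1', h2'⟩ | ⟨h0', _, _⟩
    · have t1 : x.1.top.1 = y.1.top.1 := by
        have := (e1 _ _ h1).symm.trans (e2 _ _ h1')
        exact Option.some.inj this
      have t2 : x.2.top.1 = y.2.top.1 := by
        have := (e1 _ _ h2).symm.trans (e2 _ _ h2')
        exact Option.some.inj this
      exact Prod.ext (eq_of_top hxt.1 hyt.1 t1) (eq_of_top hxt.2 hyt.2 t2)
    · exact absurd h0 h0'
  · rcases hy with ⟨h0', _, _⟩ | ⟨_, h1', h2'⟩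
    · exact absurd h0' h0
    · have t1 : x.2.top.1 = y.2.top.1 := by
        have := (e1 _ _ h1).symm.trans (e2 _ _ h1')
        exact Option.some.inj this
      have t2 : x.1.top.1 = y.1.top.1 := by
        have := (e1 _ _ h2).symm.trans (e2 _ _ h2')
        exact Option.some.inj this
      exact Prod.ext (eq_of_top hxt.1 hyt.1 t2) (eq_of_top hxt.2 hyt.2 t1)

theorem nxt_snoc [WellFoundedLT K] {p : Cond Φ} {a : K} {w : W} {i : Bool} (ha : p.top.1 < a)
    (hw : ∀ x ∈ p.s, x.2.1 < w) {γ : K} (hγ : ∀ y ∈ fst p, y ≤ γ) (hγa : γ < a) :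
    nxt (fst (p.snoc a w i ha hw)) γ = some a := by
  rw [nxt_some]
  refine ⟨⟨(a, w, i), Or.inl rfl, rfl⟩, hγa, ?_⟩
  rintro _ ⟨z, hz, rfl⟩ hγz
  rcases hz with rfl | hz
  · exact le_rfl
  · exact absurd hγz (not_lt_of_ge (hγ _ ⟨z, hz, rfl⟩))

theorem EE_dense (H : Params K W Φ) [WellFoundedLT K] {a b p q : Cond Φ} (hab : Sep a b)
    (hap : a ≤ p) (hbq : b ≤ q) : ∃ k, ∃ y ∈ EE a b k, (p, q) ≤ y := by
  classical
  have hfin := chain_finite hab hap hbq
  set γ0 := max a.top.1 b.top.1 with hγ0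
  -- least k with chain (k) = none; k > 0
  obtain ⟨m, hm⟩ : ∃ m, Nat.find hfin = m + 1 := by
    have h0 : Nat.find hfin ≠ 0 := by
      intro h
      have := Nat.find_spec hfin
      rw [h] at this
      simp [chain] at this
    exact ⟨Nat.find hfin - 1, by omega⟩
  have hnone : chain γ0 p q (m + 1) = none := by rw [← hm]; exact Nat.find_spec hfin
  obtain ⟨γ, hγ⟩ : ∃ γ, chain γ0 p q m = some γ := by
    refine Option.ne_none_iff_exists'.1 ?_
    exact Nat.find_min hfin (by omega)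
  obtain ⟨wp, hwp⟩ := H.boundW p
  obtain ⟨wq, hwq⟩ := H.boundW q
  obtain ⟨c, hc⟩ := H.boundK (s := {p.top.1, q.top.1, γ}) (Set.toFinite _).countable
  have hpc : p.top.1 < c := hc _ (by simp)
  have hqc : q.top.1 < c := hc _ (by simp)
  have hγc : γ < c := hc _ (by simp)
  obtain ⟨d, hd⟩ := H.boundK (s := {c}) (Set.toFinite _).countable
  have hcd : c < d := hd _ (by simp)
  have hn : (if m % 2 = 0 then nxt (fst p) γ else nxt (fst q) γ) = none := by
    have := hnone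
    simp only [chain, hγ, Option.bind_some] at this
    exact this
  by_cases hm2 : m % 2 = 0
  · rw [if_pos hm2, nxt_none] at hn
    have hP := lt_snoc p c wp true hpc hwp
    have hQ := lt_snoc q d wq true (hqc.trans hcd) hwq
    refine ⟨m, (p.snoc c wp true hpc hwp, q.snoc d wq true (hqc.trans hcd) hwq),
      ⟨hap.trans hP.le, hbq.trans hQ.le, Or.inl ⟨hm2, ?_⟩⟩, ⟨hP.le, hQ.le⟩⟩
    have c0 := chain_ext (γ0 := γ0) hP.le hQ.le m γ hγ
    have c1 : chain γ0 (p.snoc c wp true hpc hwp) (q.snoc d wq true (hqc.trans hcd) hwq) (m + 1) =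
        some c := by
      simp only [chain, c0, Option.bind_some, if_pos hm2]
      exact nxt_snoc hpc hwp hn hγc
    have c2 : chain γ0 (p.snoc c wp true hpc hwp) (q.snoc d wq true (hqc.trans hcd) hwq) (m + 1 + 1) =
        some d := by
      rw [chain, c1, Option.bind_some, if_neg (by omega)]
      refine nxt_snoc (hqc.trans hcd) hwq ?_ hcd
      rintro _ ⟨z, hz, rfl⟩
      exact (q.le_top z hz).trans hqc.le
    exact ⟨c1, c2⟩
  · rw [if_neg hm2, nxt_none] at hn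
    have hP := lt_snoc p d wp true (hpc.trans hcd) hwp
    have hQ := lt_snoc q c wq true hqc hwq
    refine ⟨m, (p.snoc d wp true (hpc.trans hcd) hwp, q.snoc c wq true hqc hwq),
      ⟨hap.trans hP.le, hbq.trans hQ.le, Or.inr ⟨hm2, ?_⟩⟩, ⟨hP.le, hQ.le⟩⟩
    have c0 := chain_ext (γ0 := γ0) hP.le hQ.le m γ hγ
    have c1 : chain γ0 (p.snoc d wp true (hpc.trans hcd) hwp) (q.snoc c wq true hqc hwq) (m + 1) =
        some c := by
      simp only [chain, c0, Option.bind_some, if_neg hm2]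
      exact nxt_snoc hqc hwq hn hγc
    have c2 : chain γ0 (p.snoc d wp true (hpc.trans hcd) hwp) (q.snoc c wq true hqc hwq) (m + 1 + 1) =
        some d := by
      rw [chain, c1, Option.bind_some, if_pos (by omega)]
      refine nxt_snoc (hpc.trans hcd) hwp ?_ hcd
      rintro _ ⟨z, hz, rfl⟩
      exact (p.le_top z hz).trans hpc.le
    exact ⟨c1, c2⟩

theorem cond_H3 (H : Params K W Φ) : H3 (Cond Φ) := by
  classical
  have := H.wf
  -- a maximal family of pairwise incompatible separated pairs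
  let fam : Set (Set (Cond Φ × Cond Φ)) :=
    {A | (∀ x ∈ A, Sep x.1 x.2) ∧ ∀ x ∈ A, ∀ y ∈ A, (∃ t, x ≤ t ∧ y ≤ t) → x = y}
  obtain ⟨A, hA⟩ : ∃ A, Maximal (fun A => A ∈ fam) A := by
    refine zorn_subset fam ?_
    intro c hc hchain
    refine ⟨⋃₀ c, ⟨?_, ?_⟩, fun s hs => subset_sUnion_of_mem hs⟩
    · rintro x ⟨s, hs, hx⟩
      exact (hc hs).1 x hx
    · rintro x ⟨s, hs, hx⟩ y ⟨s', hs', hy⟩ ht
      rcases hchain.total hs hs' with h | h
      · exact (hc hs').2 x (h hx) y hy ht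
      · exact (hc hs).2 x hx y (h hy) ht
  refine ⟨fun k => {x | ∃ u ∈ A, x ∈ EE u.1 u.2 k}, ?_, ?_⟩
  · rintro k x ⟨u, hu, hx⟩ y ⟨v, hv, hy⟩ ⟨t, hxt, hyt⟩
    have huv : u = v := hA.1.2 u hu v hv ⟨t, le_trans (show u ≤ x from ⟨hx.1, hx.2.1⟩) hxt,
      le_trans (show v ≤ y from ⟨hy.1, hy.2.1⟩) hyt⟩
    subst huv
    exact EE_anti hx hy ⟨t, hxt, hyt⟩
  · intro x
    obtain ⟨a, b, hxa, hxb, hab⟩ := exists_sep H x.1 x.2
    -- (a, b) is compatible with a member of A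
    obtain ⟨u, hu, t, hut, hat⟩ : ∃ u ∈ A, ∃ t : Cond Φ × Cond Φ, u ≤ t ∧ (a, b) ≤ t := by
      by_contra hcon
      push Not at hcon
      have hins : insert (a, b) A ∈ fam := by
        refine ⟨?_, ?_⟩
        · rintro x (rfl | hx)
          · exact hab
          · exact hA.1.1 x hx
        · rintro x (rfl | hx) y (rfl | hy) ⟨t, h1, h2⟩
          · rfl
          · exact absurd h1 (hcon y hy t h2)
          · exact absurd h2 (hcon x hx t h1)
          · exact hA.1.2 x hx y hy ⟨t, h1, h2⟩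
      have hmem : (a, b) ∈ A := hA.2 hins (subset_insert _ _) (mem_insert _ _)
      exact hcon _ hmem (a, b) le_rfl le_rfl
    obtain ⟨k, y, hy, hty⟩ := EE_dense H (hA.1.1 u hu) hut.1 hut.2
    exact ⟨k, y, ⟨u, hu, hy⟩, (le_trans (show x ≤ (a, b) from ⟨hxa, hxb⟩) hat).trans hty⟩

end

section

variable {K W : Type} [LinearOrder K] [LinearOrder W] {Φ : K → Set (W × Bool)}

theorem card_countable_sets {α : Type} (h : #α ≤ 𝔠) : #{t : Set α // t.Countable} ≤ 𝔠 := by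
  have h1 := Cardinal.mk_bounded_set_le α ℵ₀
  have h2 : #{t : Set α // t.Countable} = #{t : Set α // #t ≤ ℵ₀} := by
    refine Cardinal.mk_congr (Equiv.subtypeEquivRight fun t => ?_)
    exact Cardinal.le_aleph0_iff_set_countable.symm
  rw [h2]
  refine h1.trans ?_
  calc (max #α ℵ₀) ^ ℵ₀ ≤ 𝔠 ^ ℵ₀ :=
        Cardinal.power_le_power_right (max_le h Cardinal.aleph0_le_continuum)
    _ = 𝔠 := Cardinal.continuum_power_aleph0

theorem Params.card_below (H : Params K W Φ) (γ : K) : #{x : Cond Φ // x.top.1 ≤ γ} ≤ 𝔠 := by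
  have h0 : #(Iic γ × W × Bool) ≤ 𝔠 := by
    simp only [Cardinal.mk_prod, Cardinal.lift_id]
    refine (mul_le_mul' (H.segK γ) (mul_le_mul' H.cardW
      ((Cardinal.mk_le_aleph0 (α := Bool)).trans Cardinal.aleph0_le_continuum))).trans ?_
    rw [Cardinal.continuum_mul_self, Cardinal.continuum_mul_self]
  refine le_trans ?_ (card_countable_sets h0)
  let f : {x : Cond Φ // x.top.1 ≤ γ} → {t : Set (Iic γ × W × Bool) // t.Countable} := fun x =>
    ⟨(fun z : Iic γ × W × Bool => ((z.1 : K), z.2)) ⁻¹' x.1.s, by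
      refine x.1.cnt.preimage ?_
      rintro ⟨⟨a, ha⟩, b⟩ ⟨⟨a', ha'⟩, b'⟩ h
      simp only [Prod.mk.injEq] at h
      obtain ⟨rfl, rfl⟩ := h
      rfl⟩
  refine Cardinal.mk_le_of_injective (f := f) ?_
  intro x y hxy
  apply Subtype.ext
  apply Cond.ext'
  have h : ∀ x y : {x : Cond Φ // x.top.1 ≤ γ}, f x = f y → x.1.s ⊆ y.1.s := by
    intro x y hxy z hz
    have hzγ : z.1 ≤ γ := (x.1.le_top z hz).trans x.2
    have h1 : ((⟨z.1, hzγ⟩ : Iic γ), z.2) ∈ (f x).1 := hz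
    rw [hxy] at h1
    exact h1
  exact (h x y hxy).antisymm (h y x hxy.symm)

theorem Params.bdd_below (H : Params K W Φ) (γ : K) (f : Cond Φ → K) :
    ∃ b, ∀ x, x.top.1 ≤ γ → f x < b := by
  obtain ⟨b, hb⟩ := H.bddK (range fun x : {x : Cond Φ // x.top.1 ≤ γ} => f x.1)
    (Cardinal.mk_range_le.trans (H.card_below γ))
  exact ⟨b, fun x hx => hb _ ⟨⟨x, hx⟩, rfl⟩⟩

theorem Params.bdd_below2 (H : Params K W Φ) (γ : K) (f : ℕ → K → Cond Φ → K) :
    ∃ b, ∀ n γ' x, γ' ≤ γ → x.top.1 ≤ γ → f n γ' x < b := by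
  obtain ⟨b, hb⟩ := H.bddK (range fun x : ℕ × Iic γ × {x : Cond Φ // x.top.1 ≤ γ} =>
      f x.1 x.2.1 x.2.2.1) (Cardinal.mk_range_le.trans (by
    simp only [Cardinal.mk_prod, Cardinal.lift_id]
    refine (mul_le_mul' (Cardinal.mk_le_aleph0.trans Cardinal.aleph0_le_continuum)
      (mul_le_mul' (H.segK γ) (H.card_below γ))).trans ?_
    rw [Cardinal.continuum_mul_self, Cardinal.continuum_mul_self]))
  exact ⟨b, fun n γ' x h1 h2 => hb _ ⟨(n, ⟨γ', h1⟩, ⟨x, h2⟩), rfl⟩⟩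

/-- labels -/
def lab (x : Cond Φ) : Set (W × Bool) := Prod.snd '' x.s

theorem lab_countable (x : Cond Φ) : (lab x).Countable := x.cnt.image _

/-- legal moves -/
def Leg (G : ℕ → Set (Cond Φ)) (ρ : ℕ → Set (W × Bool)) (n : ℕ) (x x' : Cond Φ) : Prop :=
  x ≤ x' ∧ x' ∈ G n ∧ lab x' = ρ n

/-- positions at which the player choosing the bounds wins -/
inductive Bad (G : ℕ → Set (Cond Φ)) (ρ : ℕ → Set (W × Bool)) : ℕ → Cond Φ → Prop
  | intro (n : ℕ) (x : Cond Φ) (γ : K)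
      (h : ∀ x', Leg G ρ n x x' → γ < x'.top.1 → Bad G ρ (n + 1) x') : Bad G ρ n x

theorem exists_strat (H : Params K W Φ) {G : ℕ → Set (Cond Φ)} {ρ : ℕ → Set (W × Bool)} {n : ℕ}
    {x : Cond Φ} (hB : Bad G ρ n x) : ∃ τ : ℕ → Cond Φ → K, ∀ p : ℕ → Cond Φ, p 0 = x →
      (∀ m, Leg G ρ (n + m) (p m) (p (m + 1))) → ∃ m, (p (m + 1)).top.1 ≤ τ (n + m) (p m) := by
  classical
  induction hB with
  | intro n x γ h ih =>
    have hK := H.neK
    have hex : ∀ x' : Cond Φ, ∃ τ : ℕ → Cond Φ → K, Leg G ρ n x x' → γ < x'.top.1 →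
        ∀ p : ℕ → Cond Φ, p 0 = x' →
        (∀ m, Leg G ρ (n + 1 + m) (p m) (p (m + 1))) →
          ∃ m, (p (m + 1)).top.1 ≤ τ (n + 1 + m) (p m) := by
      intro x'
      by_cases hx' : Leg G ρ n x x' ∧ γ < x'.top.1
      · obtain ⟨τ, hτ⟩ := ih x' hx'.1 hx'.2
        exact ⟨τ, fun _ _ => hτ⟩
      · exact ⟨fun _ _ => hK.some, fun h1 h2 => absurd ⟨h1, h2⟩ hx'⟩
    choose τ' hτ' using hex
    have hb : ∀ (k : ℕ) (z : Cond Φ), ∃ b : K, γ < b ∧ ∀ x', x' ≤ z → τ' x' k z < b := by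
      intro k z
      obtain ⟨b, hb⟩ := H.bdd_below z.top.1 (fun x' => τ' x' k z)
      obtain ⟨c, hc⟩ := H.boundK (s := {b, γ}) (Set.toFinite _).countable
      exact ⟨c, hc _ (by simp), fun x' hx' => (hb x' (top_le hx')).trans (hc _ (by simp))⟩
    choose τ hτ using hb
    refine ⟨τ, fun p hp0 hleg => ?_⟩
    by_cases h0 : (p 1).top.1 ≤ τ n (p 0)
    · exact ⟨0, by simpa using h0⟩
    · push Not at h0
      have hl0 : Leg G ρ n x (p 1) := by
        have := hleg 0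
        rw [hp0] at this
        simpa using this
      have hγ : γ < (p 1).top.1 := (hτ n (p 0)).1.trans h0
      obtain ⟨m, hm⟩ := hτ' (p 1) hl0 hγ (fun m => p (m + 1)) rfl (fun m => by
        have := hleg (m + 1)
        rw [show n + (m + 1) = n + 1 + m by omega] at this
        exact this)
      have hmono : ∀ m, p 1 ≤ p (m + 1) := by
        intro m
        induction m with
        | zero => exact le_rfl
        | succ m ihm => exact ihm.trans (hleg (m + 1)).1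
      refine ⟨m + 1, ?_⟩
      rw [show n + (m + 1) = n + 1 + m by omega]
      exact hm.trans ((hτ (n + 1 + m) (p (m + 1))).2 (p 1) (hmono m)).le

theorem exists_ext (H : Params K W Φ) (x : Cond Φ) (γ : K) : ∃ y, x ≤ y ∧ γ < y.top.1 := by
  obtain ⟨w, hw⟩ := H.boundW x
  obtain ⟨c, hc⟩ := H.boundK (s := {x.top.1, γ}) (Set.toFinite _).countable
  have h1 : x.top.1 < c := hc _ (by simp)
  exact ⟨x.snoc c w true h1 hw, (lt_snoc _ _ _ _ _ _).le, hc _ (by simp)⟩

theorem exists_cond (H : Params K W Φ) : Nonempty (Cond Φ) := by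
  obtain ⟨k⟩ := H.neK
  obtain ⟨w⟩ := H.neW
  exact ⟨{
    s := {(k, w, true)}
    cnt := Set.countable_singleton _
    top := (k, w, true)
    top_mem := rfl
    le_top := by rintro x rfl; exact le_rfl
    mono := by rintro x rfl y rfl h; exact absurd h (lt_irrefl _)
    inj := by rintro x rfl y rfl _; rfl
    lim := by
      rintro δ ⟨⟨x, rfl, hx⟩, h⟩
      obtain ⟨y, rfl, h1, _⟩ := h k hx
      exact absurd h1 (lt_irrefl _) }⟩

/-- the limit of an increasing sequence -/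
theorem exists_limit (H : Params K W Φ) (p : ℕ → Cond Φ) (hp : ∀ n, p n ≤ p (n + 1)) (δ : K)
    (h1 : ∀ n, (p n).top.1 < δ) (h2 : ∀ x < δ, ∃ n, x < (p n).top.1)
    (h3 : Φ δ = ⋃ n, lab (p n)) : ∃ q : Cond Φ, ∀ n, p n ≤ q := by
  have hmono : Monotone p := monotone_nat_of_le_succ hp
  have hsub : ∀ {m n}, m ≤ n → (p m).s ⊆ (p n).s := fun h => (hmono h).1
  obtain ⟨w, hw⟩ := H.bddW (⋃ n, (fun x : K × W × Bool => x.2.1) '' (p n).s)
    (Set.countable_iUnion fun n => (p n).cnt.image _)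
  have hw' : ∀ n, ∀ x ∈ (p n).s, x.2.1 < w := fun n x hx =>
    hw _ (mem_iUnion.2 ⟨n, mem_image_of_mem _ hx⟩)
  have hlt : ∀ n, ∀ x ∈ (p n).s, x.1 < δ := fun n x hx => lt_of_le_of_lt ((p n).le_top x hx) (h1 n)
  have hdown : ∀ n m, ∀ z ∈ (p m).s, z.1 ≤ (p n).top.1 → z ∈ (p n).s := by
    intro n m z hz hzn
    rcases le_total m n with h | h
    · exact hsub h hz
    · exact (hmono h).2 z hz hzn
  let q : Cond Φ := {
    s := insert (δ, w, true) (⋃ n, (p n).s)
    cnt := (Set.countable_iUnion fun n => (p n).cnt).insert _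
    top := (δ, w, true)
    top_mem := mem_insert _ _
    le_top := by
      rintro x (rfl | hx)
      · exact le_rfl
      · obtain ⟨n, hx⟩ := mem_iUnion.1 hx
        exact (hlt n x hx).le
    mono := by
      rintro x (rfl | hx) y (rfl | hy) hxy
      · exact absurd hxy (lt_irrefl _)
      · obtain ⟨n, hy⟩ := mem_iUnion.1 hy
        exact absurd hxy (not_lt_of_gt (hlt n y hy))
      · obtain ⟨n, hx⟩ := mem_iUnion.1 hx
        exact hw' n x hx
      · obtain ⟨n, hx⟩ := mem_iUnion.1 hx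
        obtain ⟨m, hy⟩ := mem_iUnion.1 hy
        exact (p (max n m)).mono x (hsub (le_max_left _ _) hx) y (hsub (le_max_right _ _) hy) hxy
    inj := by
      rintro x (rfl | hx) y (rfl | hy) hxy
      · rfl
      · obtain ⟨n, hy⟩ := mem_iUnion.1 hy
        have := hlt n y hy
        rw [← hxy] at this
        exact absurd this (lt_irrefl _)
      · obtain ⟨n, hx⟩ := mem_iUnion.1 hx
        have := hlt n x hx
        rw [hxy] at this
        exact absurd this (lt_irrefl _)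
      · obtain ⟨n, hx⟩ := mem_iUnion.1 hx
        obtain ⟨m, hy⟩ := mem_iUnion.1 hy
        exact (p (max n m)).inj x (hsub (le_max_left _ _) hx) y (hsub (le_max_right _ _) hy) hxy
    lim := by
      rintro δ' ⟨⟨x, hx, hxδ⟩, hδ'⟩
      have hle : δ' ≤ δ := by
        by_contra hlt'
        push Not at hlt'
        obtain ⟨y, hy, hay, _⟩ := hδ' δ hlt'
        rcases hy with rfl | hy
        · exact lt_irrefl _ hay
        · obtain ⟨n, hy⟩ := mem_iUnion.1 hy
          exact absurd hay (not_lt_of_gt (hlt n y hy))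
      rcases hle.lt_or_eq with hlt' | rfl
      · obtain ⟨n, hn⟩ := h2 δ' hlt'
        have hback : ∀ z ∈ insert (δ, w, true) (⋃ n, (p n).s), z.1 < δ' → z ∈ (p n).s := by
          rintro z (rfl | hz) hzδ
          · exact absurd (hzδ.trans hlt') (lt_irrefl _)
          · obtain ⟨m, hz⟩ := mem_iUnion.1 hz
            exact hdown n m z hz (hzδ.trans hn).le
        have hlim : IsLim (p n).s δ' := by
          refine ⟨⟨x, hback x hx hxδ, hxδ⟩, fun γ hγ => ?_⟩
          obtain ⟨y, hy, h3, h4⟩ := hδ' γ hγ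
          exact ⟨y, hback y hy h4, h3, h4⟩
        rw [(p n).lim δ' hlim]
        ext u
        constructor
        · rintro ⟨y, hy, h3, h4⟩
          exact ⟨y, Or.inr (mem_iUnion.2 ⟨n, hy⟩), h3, h4⟩
        · rintro ⟨y, hy, h3, h4⟩
          exact ⟨y, hback y hy h3, h3, h4⟩
      · rw [h3]
        ext u
        constructor
        · intro hu
          obtain ⟨n, z, hz, rfl⟩ := mem_iUnion.1 hu
          exact ⟨z, Or.inr (mem_iUnion.2 ⟨n, hz⟩), hlt n z hz, rfl⟩
        · rintro ⟨y, hy, h3, rfl⟩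
          rcases hy with rfl | hy
          · exact absurd h3 (lt_irrefl _)
          · obtain ⟨n, hy⟩ := mem_iUnion.1 hy
            exact mem_iUnion.2 ⟨n, y, hy, rfl⟩ }
  refine ⟨q, fun n => ⟨fun z hz => Or.inr (mem_iUnion.2 ⟨n, hz⟩), ?_⟩⟩
  rintro z (rfl | hz) hzn
  · exact absurd (h1 n) (not_lt_of_ge hzn)
  · obtain ⟨m, hz⟩ := mem_iUnion.1 hz
    exact hdown n m z hz hzn

theorem cond_H2 (H : Params K W Φ) : H2 (Cond Φ) := by
  classical
  intro G hup hdense
  obtain ⟨p0⟩ := exists_cond H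
  by_cases hA : ∃ ρ : ℕ → {r : Set (W × Bool) // r.Countable}, ¬ Bad G (fun n => (ρ n).1) 0 p0
  · obtain ⟨ρ, hρ⟩ := hA
    -- the response function
    have hresp : ∀ (n : ℕ) (γ : K) (x : Cond Φ), ∃ x', ¬ Bad G (fun n => (ρ n).1) n x →
        (Leg G (fun n => (ρ n).1) n x x' ∧ γ < x'.top.1 ∧ ¬ Bad G (fun n => (ρ n).1) (n + 1) x') := by
      intro n γ x
      by_cases hB : Bad G (fun n => (ρ n).1) n x
      · exact ⟨x, fun h => absurd hB h⟩
      · by_contra hcon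
        push Not at hcon
        refine hB (Bad.intro n x γ fun x' h1 h2 => ?_)
        exact (hcon x').2 h1 h2
    choose R hR using hresp
    have hh : ∀ γ : K, ∃ b, p0.top.1 < b ∧ ∀ n γ' x, γ' ≤ γ → x.top.1 ≤ γ → (R n γ' x).top.1 < b := by
      intro γ
      obtain ⟨b, hb⟩ := H.bdd_below2 γ (fun n γ' x => (R n γ' x).top.1)
      obtain ⟨c, hc⟩ := H.boundK (s := {b, p0.top.1}) (Set.toFinite _).countable
      exact ⟨c, hc _ (by simp), fun n γ' x h1 h2 => (hb n γ' x h1 h2).trans (hc _ (by simp))⟩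
    choose h hh0 hh1 using hh
    obtain ⟨δ, hδr, ⟨γ, hγmono, hγδ, hγcof⟩, hδh⟩ := H.stat (⋃ n, (ρ n).1)
      (Set.countable_iUnion fun n => (ρ n).2) h
    let p : ℕ → Cond Φ := fun n => Nat.rec p0 (fun n x => R n (γ n) x) n
    have hp0 : p 0 = p0 := rfl
    have hps : ∀ n, p (n + 1) = R n (γ n) (p n) := fun n => rfl
    have hpB : ∀ n, ¬ Bad G (fun n => (ρ n).1) n (p n) := by
      intro n
      induction n with
      | zero => exact hρ
      | succ n ih => rw [hps]; exact (hR n (γ n) (p n) ih).2.2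
    have hleg : ∀ n, Leg G (fun n => (ρ n).1) n (p n) (p (n + 1)) := fun n => by
      rw [hps]; exact (hR n (γ n) (p n) (hpB n)).1
    have hgt : ∀ n, γ n < (p (n + 1)).top.1 := fun n => by
      rw [hps]; exact (hR n (γ n) (p n) (hpB n)).2.1
    have hltδ : ∀ n, (p n).top.1 < δ := by
      intro n
      induction n with
      | zero => exact (hh0 (γ 0)).trans (hδh _ (hγδ 0))
      | succ n ih =>
        rw [hps]
        refine (hh1 (max (γ n) (p n).top.1) n (γ n) (p n) (le_max_left _ _) (le_max_right _ _)).trans ?_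
        exact hδh _ (max_lt (hγδ n) ih)
    obtain ⟨q, hq⟩ := exists_limit H p (fun n => (hleg n).1) δ hltδ (fun x hx => by
        obtain ⟨n, hn⟩ := hγcof x hx
        exact ⟨n + 1, hn.trans (hgt n)⟩) (by
        rw [hδr]
        apply Set.Subset.antisymm
        · refine iUnion_subset fun n => ?_
          have hl : lab (p (n + 1)) = (ρ n).1 := (hleg n).2.2
          rw [← hl]
          exact subset_iUnion (fun n => lab (p n)) (n + 1)
        · refine iUnion_subset fun n => ?_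
          have hl : lab (p (n + 1)) = (ρ n).1 := (hleg n).2.2
          refine Subset.trans ?_ (subset_iUnion (fun n => (ρ n).1) n)
          rw [← hl]
          exact image_mono (hleg n).1.1)
    exact ⟨q, mem_iInter.2 fun n => hup n _ (hleg n).2.1 q (hq (n + 1))⟩
  · exfalso
    push Not at hA
    have hst : ∀ ρ : ℕ → {r : Set (W × Bool) // r.Countable}, ∃ τ : ℕ → Cond Φ → K,
        ∀ p : ℕ → Cond Φ, p 0 = p0 → (∀ m, Leg G (fun n => (ρ n).1) m (p m) (p (m + 1))) →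
        ∃ m, (p (m + 1)).top.1 ≤ τ m (p m) := by
      intro ρ
      obtain ⟨τ, hτ⟩ := exists_strat H (hA ρ)
      refine ⟨τ, fun p h1 h2 => ?_⟩
      have := hτ p h1 (by simpa using h2)
      simpa using this
    choose τ hτ using hst
    have hcard : #(ℕ → {r : Set (W × Bool) // r.Countable}) ≤ 𝔠 := by
      have h1 : #(W × Bool) ≤ 𝔠 := by
        simp only [Cardinal.mk_prod, Cardinal.lift_id]
        refine (mul_le_mul' H.cardW
          ((Cardinal.mk_le_aleph0 (α := Bool)).trans Cardinal.aleph0_le_continuum)).trans ?_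
        rw [Cardinal.continuum_mul_self]
      rw [← Cardinal.power_def]
      calc #{r : Set (W × Bool) // r.Countable} ^ #ℕ ≤ 𝔠 ^ #ℕ :=
            Cardinal.power_le_power_right (card_countable_sets h1)
        _ = 𝔠 := by rw [Cardinal.mk_nat, Cardinal.continuum_power_aleph0]
    have hg : ∀ (n : ℕ) (x : Cond Φ), ∃ b, ∀ ρ, τ ρ n x < b := by
      intro n x
      obtain ⟨b, hb⟩ := H.bddK (range fun ρ => τ ρ n x) (Cardinal.mk_range_le.trans hcard)
      exact ⟨b, fun ρ => hb _ ⟨ρ, rfl⟩⟩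
    choose g hg using hg
    have hnext : ∀ (n : ℕ) (x : Cond Φ), ∃ y, x ≤ y ∧ y ∈ G n ∧ g n x < y.top.1 := by
      intro n x
      obtain ⟨y, hxy, hy⟩ := exists_ext H x (g n x)
      obtain ⟨z, hz, hyz⟩ := hdense n y
      exact ⟨z, hxy.trans hyz, hz, hy.trans_le (top_le hyz)⟩
    choose N hN1 hN2 hN3 using hnext
    let p : ℕ → Cond Φ := fun n => Nat.rec p0 (fun n x => N n x) n
    have hps : ∀ n, p (n + 1) = N n (p n) := fun n => rfl
    obtain ⟨m, hm⟩ := hτ (fun n => ⟨lab (p (n + 1)), lab_countable _⟩) p rfl (fun n => by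
      refine ⟨?_, ?_, rfl⟩
      · rw [hps]; exact hN1 _ _
      · rw [hps]; exact hN2 _ _)
    have h1 := hg m (p m) (fun n => ⟨lab (p (n + 1)), lab_countable _⟩)
    have h2 := hN3 m (p m)
    rw [← hps] at h2
    exact absurd (hm.trans_lt (h1.trans h2)) (lt_irrefl _)

end

section

section
variable {K : Type} [LinearOrder K]

/-- ω-limits closed under `h` -/
def CC (h : K → K) : Set K :=
  {δ | (∃ γ : ℕ → K, StrictMono γ ∧ (∀ n, γ n < δ) ∧ ∀ x < δ, ∃ n, x < γ n) ∧ ∀ x < δ, h x < δ}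

/-- the sets missing some `CC h` -/
def Thin (S : Set K) : Prop := ∃ h : K → K, ∀ δ ∈ S, δ ∉ CC h

theorem thin_iUnion {I : Type} (hI : #I ≤ 𝔠) (bddK : ∀ s : Set K, #s ≤ 𝔠 → ∃ x, ∀ a ∈ s, a < x)
    {S : I → Set K} (hS : ∀ i, Thin (S i)) : Thin (⋃ i, S i) := by
  choose h hh using hS
  have hb : ∀ x, ∃ b, ∀ i, h i x < b := by
    intro x
    obtain ⟨b, hb⟩ := bddK (range fun i => h i x) (Cardinal.mk_range_le.trans hI)
    exact ⟨b, fun i => hb _ ⟨i, rfl⟩⟩
  choose g hg using hb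
  refine ⟨g, fun δ hδ hC => ?_⟩
  obtain ⟨i, hi⟩ := mem_iUnion.1 hδ
  exact hh i δ hi ⟨hC.1, fun x hx => (hg x i).trans (hC.2 x hx)⟩

theorem not_thin_Ioi [WellFoundedLT K] (bddK : ∀ s : Set K, #s ≤ 𝔠 → ∃ x, ∀ a ∈ s, a < x)
    (segK : ∀ a : K, #(Iic a) ≤ 𝔠) (α : K) : ¬ Thin (Ioi α) := by
  rintro ⟨h, hh⟩
  have hb : ∀ x, ∃ b, x < b ∧ ∀ y ≤ x, h y < b := by
    intro x
    obtain ⟨b, hb⟩ := bddK (h '' Iic x) (Cardinal.mk_image_le.trans (segK x))
    obtain ⟨c, hc⟩ := bddK {x, b}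
      ((Cardinal.le_aleph0_iff_set_countable.2 (Set.toFinite _).countable).trans
        Cardinal.aleph0_le_continuum)
    exact ⟨c, hc _ (by simp), fun y hy => (hb _ (mem_image_of_mem _ hy)).trans (hc _ (by simp))⟩
  choose g hg1 hg2 using hb
  let γ : ℕ → K := fun n => Nat.rec (g α) (fun _ x => g x) n
  have hγs : ∀ n, γ (n + 1) = g (γ n) := fun n => rfl
  have hlt : ∀ n, γ n < γ (n + 1) := fun n => by rw [hγs]; exact hg1 _
  have hmono : StrictMono γ := strictMono_nat_of_lt_succ hlt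
  have hne : {δ : K | ∀ k, γ k ≤ δ}.Nonempty := by
    obtain ⟨b, hb⟩ := bddK (range γ)
      ((Cardinal.le_aleph0_iff_set_countable.2 (countable_range _)).trans Cardinal.aleph0_le_continuum)
    exact ⟨b, fun k => (hb _ ⟨k, rfl⟩).le⟩
  set δ := wellFounded_lt.min {δ : K | ∀ k, γ k ≤ δ} hne with hδ
  have hδ1 : ∀ k, γ k ≤ δ := wellFounded_lt.min_mem {δ : K | ∀ k, γ k ≤ δ} hne
  have hδ2 : ∀ x < δ, ∃ k, x < γ k := by
    intro x hx
    by_contra hcon2
    push Not at hcon2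
    exact absurd hx (wellFounded_lt.not_lt_min {δ : K | ∀ k, γ k ≤ δ} hcon2)
  have hδ3 : ∀ k, γ k < δ := fun k => (hlt k).trans_le (hδ1 (k + 1))
  refine hh δ ((hg1 α).trans (hδ3 0)) ⟨⟨γ, hmono, hδ3, hδ2⟩, fun x hx => ?_⟩
  obtain ⟨k, hk⟩ := hδ2 x hx
  exact (hg2 (γ k) x hk.le).trans (hδ3 (k + 1))

end

theorem exists_params : ∃ (K W : Type) (_ : LinearOrder K) (_ : LinearOrder W)
    (Φ : K → Set (W × Bool)), Params K W Φ := by
  classical
  let κ : Cardinal.{0} := Order.succ 𝔠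
  let K : Type := κ.ord.ToType
  let W : Type := (ℵ₁ : Cardinal.{0}).ord.ToType
  have hκK : #K = κ := by simp [K]
  have hW : #W = ℵ₁ := by simp [W]
  have hcκ : 𝔠 < κ := Order.lt_succ 𝔠
  have hwf : WellFoundedLT K := inferInstance
  have segK' : ∀ a : K, #(Iic a) ≤ 𝔠 := by
    intro a
    have h1 : #(Iio a) < κ := by
      have := Cardinal.mk_Iio_lt a (by rw [hκK]; exact (Ordinal.type_toType _).symm)
      rwa [hκK] at this
    have h2 : #(Iio a) ≤ 𝔠 := Order.lt_succ_iff.1 h1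
    have h3 : Iic a = insert a (Iio a) := by
      ext x; simp [le_iff_eq_or_lt]
    rw [h3]
    refine (Cardinal.mk_insert_le).trans ?_
    refine (add_le_add h2 (Cardinal.one_le_aleph0.trans Cardinal.aleph0_le_continuum)).trans ?_
    rw [Cardinal.continuum_add_self]
  have bddK' : ∀ s : Set K, #s ≤ 𝔠 → ∃ x, ∀ a ∈ s, a < x := by
    intro s hs
    by_contra hcon
    push Not at hcon
    have hU : (⋃ a : s, Iic a.1) = (univ : Set K) := by
      ext x
      simp only [mem_iUnion, mem_Iic, mem_univ, iff_true]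
      obtain ⟨a, ha, hx⟩ := hcon x
      exact ⟨⟨a, ha⟩, hx⟩
    have h1 : #(⋃ a : s, Iic a.1) ≤ #s * ⨆ a : s, #(Iic a.1) := Cardinal.mk_iUnion_le _
    rw [hU, Cardinal.mk_univ, hκK] at h1
    have h2 : (⨆ a : s, #(Iic a.1)) ≤ 𝔠 := ciSup_le' fun a => segK' a.1
    have h3 := h1.trans (mul_le_mul' hs h2)
    rw [Cardinal.continuum_mul_self] at h3
    exact absurd hcκ (not_lt_of_ge h3)
  have segW : ∀ a : W, (Iic a).Countable := by
    intro a
    have h1 : #(Iio a) < ℵ₁ := by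
      have := Cardinal.mk_Iio_lt a (by rw [hW]; exact (Ordinal.type_toType _).symm)
      rwa [hW] at this
    have h2 : (Iio a).Countable := by
      rw [← Cardinal.le_aleph0_iff_set_countable]
      exact Cardinal.lt_aleph_one_iff.1 h1
    have h3 : Iic a = insert a (Iio a) := by
      ext x; simp [le_iff_eq_or_lt]
    rw [h3]
    exact h2.insert _
  have bddW' : ∀ s : Set W, s.Countable → ∃ x, ∀ a ∈ s, a < x := by
    intro s hs
    by_contra hcon
    push Not at hcon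
    have hU : (⋃ a ∈ s, Iic a) = (univ : Set W) := by
      ext x
      simp only [mem_iUnion, mem_Iic, mem_univ, iff_true]
      obtain ⟨a, ha, hx⟩ := hcon x
      exact ⟨a, ha, hx⟩
    have h1 : (⋃ a ∈ s, Iic a).Countable := hs.biUnion fun a _ => segW a
    rw [hU, ← Cardinal.le_aleph0_iff_set_countable, Cardinal.mk_univ, hW] at h1
    exact absurd Cardinal.aleph0_lt_aleph_one (not_lt_of_ge h1)
  have hWc : #W ≤ 𝔠 := by rw [hW]; exact Cardinal.aleph_one_le_continuum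
  have neK' : Nonempty K := by
    rw [← Cardinal.mk_ne_zero_iff, hκK]
    exact (lt_of_le_of_lt bot_le hcκ).ne'
  have neW' : Nonempty W := by
    rw [← Cardinal.mk_ne_zero_iff, hW]
    exact (lt_of_le_of_lt bot_le Cardinal.aleph0_lt_aleph_one).ne'
  -- injections
  have hM : #(Set ℕ) = 𝔠 := Cardinal.mk_set_nat
  have hinj : ∀ δ : K, ∃ e : K → Set ℕ, InjOn e (Iic δ) := by
    intro δ
    have h1 : #(Iic δ) ≤ #(Set ℕ) := by rw [hM]; exact segK' δ
    obtain ⟨f⟩ := h1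
    refine ⟨fun x => if h : x ≤ δ then f ⟨x, h⟩ else ∅, ?_⟩
    intro x hx y hy hxy
    simp only [mem_Iic] at hx hy
    simp only [dif_pos hx, dif_pos hy] at hxy
    have := f.injective hxy
    exact Subtype.ext_iff.1 this
  choose e he using hinj
  have hU : ∀ α : K, ∃ ξ : Set ℕ, ¬ Thin {δ : K | α < δ ∧ e δ α = ξ} := by
    intro α
    by_contra hcon
    push Not at hcon
    have h1 := thin_iUnion hM.le bddK' hcon
    have h2 : (⋃ ξ : Set ℕ, {δ : K | α < δ ∧ e δ α = ξ}) = Ioi α := by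
      ext δ
      simp
    rw [h2] at h1
    exact not_thin_Ioi bddK' segK' α h1
  choose ξ hξ using hU
  -- pigeonhole
  obtain ⟨ξ0, hξ0⟩ : ∃ ξ0, 𝔠 ≤ #(ξ ⁻¹' {ξ0}) := by
    by_contra hcon
    push Not at hcon
    have hUn : (⋃ s : Set ℕ, ξ ⁻¹' {s}) = (univ : Set K) := by
      ext x; simp
    have h1 : #(⋃ s : Set ℕ, ξ ⁻¹' {s}) ≤ #(Set ℕ) * ⨆ s : Set ℕ, #(ξ ⁻¹' {s}) :=
      Cardinal.mk_iUnion_le _
    rw [hUn, Cardinal.mk_univ, hκK, hM] at h1
    have h2 : (⨆ s : Set ℕ, #(ξ ⁻¹' {s})) ≤ 𝔠 := ciSup_le' fun s => (hcon s).le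
    have h3 := h1.trans (mul_le_mul' le_rfl h2)
    rw [Cardinal.continuum_mul_self] at h3
    exact absurd hcκ (not_lt_of_ge h3)
  have hR : #{r : Set (W × Bool) // r.Countable} ≤ 𝔠 := by
    have h1 : #(W × Bool) ≤ 𝔠 := by
      simp only [Cardinal.mk_prod, Cardinal.lift_id]
      refine (mul_le_mul' hWc
        ((Cardinal.mk_le_aleph0 (α := Bool)).trans Cardinal.aleph0_le_continuum)).trans ?_
      rw [Cardinal.continuum_mul_self]
    have h2 := Cardinal.mk_bounded_set_le (W × Bool) ℵ₀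
    have h3 : #{t : Set (W × Bool) // t.Countable} = #{t : Set (W × Bool) // #t ≤ ℵ₀} := by
      refine Cardinal.mk_congr (Equiv.subtypeEquivRight fun t => ?_)
      exact Cardinal.le_aleph0_iff_set_countable.symm
    rw [h3]
    refine h2.trans ?_
    calc (max #(W × Bool) ℵ₀) ^ ℵ₀ ≤ 𝔠 ^ ℵ₀ :=
          Cardinal.power_le_power_right (max_le h1 Cardinal.aleph0_le_continuum)
      _ = 𝔠 := Cardinal.continuum_power_aleph0
  obtain ⟨ι⟩ := hR.trans hξ0
  let Φ : K → Set (W × Bool) := fun δ =>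
    if h : ∃ r : {r : Set (W × Bool) // r.Countable}, (ι r).1 < δ ∧ e δ (ι r).1 = ξ0 then h.choose.1 else ∅
  refine ⟨K, W, inferInstance, inferInstance, Φ, hwf, bddK', segK', bddW', hWc, ?_, neK', neW'⟩
  intro r hr h
  have h1 : ¬ Thin {δ : K | (ι ⟨r, hr⟩).1 < δ ∧ e δ (ι ⟨r, hr⟩).1 = ξ0} := by
    have h2 := hξ (ι ⟨r, hr⟩).1
    have h3 : ξ (ι ⟨r, hr⟩).1 = ξ0 := (ι ⟨r, hr⟩).2
    rw [h3] at h2
    exact h2
  obtain ⟨δ, hδ1, hδ2⟩ : ∃ δ ∈ {δ : K | (ι ⟨r, hr⟩).1 < δ ∧ e δ (ι ⟨r, hr⟩).1 = ξ0}, δ ∈ CC h := by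
    by_contra hcon
    push Not at hcon
    exact h1 ⟨h, hcon⟩
  refine ⟨δ, ?_, hδ2⟩
  have hex : ∃ r : {r : Set (W × Bool) // r.Countable}, (ι r).1 < δ ∧ e δ (ι r).1 = ξ0 :=
    ⟨⟨r, hr⟩, hδ1⟩
  have hΦ : Φ δ = hex.choose.1 := dif_pos hex
  rw [hΦ]
  have hsp := hex.choose_spec
  have h4 : (ι hex.choose).1 = (ι ⟨r, hr⟩).1 :=
    he δ (show (ι hex.choose).1 ≤ δ from hsp.1.le) (show (ι ⟨r, hr⟩).1 ≤ δ from hδ1.1.le)
      (hsp.2.trans hδ1.2.symm)
  have h5 : hex.choose = ⟨r, hr⟩ := ι.injective (Subtype.ext h4)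
  rw [h5]

end

end Pool.Agent.DSepSquare
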